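import Pool.Agent.H11.KT.Targets

/-!
# P_RX: the words `rw m c` have property `RW`
-/

set_option autoImplicit false

namespace Pool.Agent.H94.KT

open Pool.Agent.H11.EL Pool.Agent.H11.KT
open scoped commutatorElement

/-- the law of the word -/
theorem rx_law {m : ℕ} {c : FreeGroup (Fin m)} {H : Type} [Group H]
    (h : ∀ f : Fin 2 → H, FreeGroup.lift f (rw m c) = 1) (a b : H) :
    ⁅a, b⁆ * FreeGroup.lift (fun i : Fin m => b ^ ((i : ℕ) + 1) * a * (b ^ ((i : ℕ) + 1))⁻¹) c =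
      1 := by
  have h1 := h ![b, a]
  unfold rw at h1
  have e : FreeGroup.lift ![b, a] (FreeGroup.lift (fun i : Fin m =>
      FreeGroup.of (0 : Fin 2) ^ ((i : ℕ) + 1) * FreeGroup.of 1 *
        (FreeGroup.of 0 ^ ((i : ℕ) + 1))⁻¹) c) =
      FreeGroup.lift (fun i : Fin m => b ^ ((i : ℕ) + 1) * a * (b ^ ((i : ℕ) + 1))⁻¹) c := by
    have h2 : (FreeGroup.lift ![b, a]).comp (FreeGroup.lift (fun i : Fin m =>
        FreeGroup.of (0 : Fin 2) ^ ((i : ℕ) + 1) * FreeGroup.of 1 *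
          (FreeGroup.of 0 ^ ((i : ℕ) + 1))⁻¹)) =
        FreeGroup.lift (fun i : Fin m => b ^ ((i : ℕ) + 1) * a * (b ^ ((i : ℕ) + 1))⁻¹) := by
      ext i
      simp
    exact DFunLike.congr_fun h2 c
  rw [map_mul, e, map_commutatorElement] at h1
  simpa using h1

theorem rx_mem {m : ℕ} {c : FreeGroup (Fin m)} {H : Type} [Group H]
    (h : ∀ f : Fin 2 → H, FreeGroup.lift f (rw m c) = 1) (a b : H) :
    a ∈ Subgroup.closure {g | ∃ i : ℕ, 1 ≤ i ∧ i ≤ m + 1 ∧ g = b ^ i * a * (b ^ i)⁻¹} := by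
  set S := Subgroup.closure {g | ∃ i : ℕ, 1 ≤ i ∧ i ≤ m + 1 ∧ g = b ^ i * a * (b ^ i)⁻¹} with hS
  have h1 := rx_law h a b
  have h2 : FreeGroup.lift (fun i : Fin m => b ^ ((i : ℕ) + 1) * a * (b ^ ((i : ℕ) + 1))⁻¹) c ∈
      S := by
    have h3 : (FreeGroup.lift (fun i : Fin m => b ^ ((i : ℕ) + 1) * a *
        (b ^ ((i : ℕ) + 1))⁻¹)).range ≤ S := by
      rw [FreeGroup.range_lift_eq_closure, hS]
      refine Subgroup.closure_mono ?_
      rintro _ ⟨i, rfl⟩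
      exact ⟨(i : ℕ) + 1, by omega, by omega, rfl⟩
    exact h3 ⟨c, rfl⟩
  have h4 : ⁅a, b⁆ ∈ S := by
    have h5 : ⁅a, b⁆ = (FreeGroup.lift (fun i : Fin m => b ^ ((i : ℕ) + 1) * a *
        (b ^ ((i : ℕ) + 1))⁻¹) c)⁻¹ := eq_inv_of_mul_eq_one_left h1
    rw [h5]
    exact S.inv_mem h2
  have h6 : b * a * b⁻¹ ∈ S :=
    Subgroup.subset_closure ⟨1, le_rfl, by omega, by rw [pow_one]⟩
  have h7 : a = ⁅a, b⁆ * (b * a * b⁻¹) := by
    rw [commutatorElement_def]
    group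
  rw [h7]
  exact S.mul_mem h4 h6

theorem pf_RX (hFG : P_FG) (hMX : P_MX) : P_RX := by
  intro m c hc H _ x y hxy hlaw
  refine ⟨hFG (m + 1) H (fun a b => rx_mem hlaw a b) x y hxy, ?_⟩
  refine le_antisymm (Subgroup.commutator_le_left _ _) ?_
  set N : Subgroup H := ⁅commutator H, commutator H⁆ with hN
  have hlawQ : ∀ f : Fin 2 → H ⧸ N, FreeGroup.lift f (rw m c) = 1 := by
    intro f
    have h1 : FreeGroup.lift f = (QuotientGroup.mk' N).comp
        (FreeGroup.lift fun i => (f i).out) := by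
      ext i
      simp
    rw [h1, MonoidHom.comp_apply, hlaw, map_one]
  have hds : derivedSeries (H ⧸ N) 2 = ⊥ := by
    have h1 := derivedSeries_le_map_derivedSeries (QuotientGroup.mk'_surjective N) 2
    have h2 : derivedSeries H 2 = N := by
      rw [hN, derivedSeries_succ, derivedSeries_one]
    rw [h2] at h1
    have h3 : N.map (QuotientGroup.mk' N) = ⊥ := by
      rw [Subgroup.map_eq_bot_iff, QuotientGroup.ker_mk']
    rw [h3] at h1
    exact le_bot_iff.1 h1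
  have hcomm := hMX m c hc (H ⧸ N) hds hlawQ
  rw [commutator_def, Subgroup.commutator_le]
  intro a _ b _
  rw [← QuotientGroup.eq_one_iff]
  have h1 := hcomm (a : H ⧸ N) (b : H ⧸ N)
  rw [commutatorElement_def]
  show (a : H ⧸ N) * b * (a : H ⧸ N)⁻¹ * (b : H ⧸ N)⁻¹ = 1
  rw [h1]
  group

end Pool.Agent.H94.KT
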